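import Pool.Agent.H.MP_ca7eb7_al.D

set_option autoImplicit false

namespace Pool.Agent.Results.MP_ca7eb7_al.Four

open Pool.Agent.H.MP_ca7eb7_al Matrix

theorem result (n : ℕ) (hn : 3 ≤ n) (A : Matrix.specialUnitaryGroup (Fin n) ℂ) :
    ∃ s₁ s₂ s₃ s₄ : Matrix.specialUnitaryGroup (Fin n) ℂ,
      s₁ ^ 2 = 1 ∧ s₂ ^ 2 = 1 ∧ s₃ ^ 2 = 1 ∧ s₄ ^ 2 = 1 ∧ A = s₁ * s₂ * s₃ * s₄ := by
  obtain ⟨A, hA⟩ := A
  have hA' := mem_specialUnitaryGroup_iff.1 hA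
  obtain ⟨B, C, ⟨J1, J2, h1, h2, rfl⟩, ⟨J3, J4, h3, h4, rfl⟩, h⟩ :=
    four_su A (mem_unitaryGroup_iff'.1 hA'.1) hA'.2 (by simpa using hn)
  have mem : ∀ J : Matrix (Fin n) (Fin n) ℂ, Inv J → J ∈ Matrix.specialUnitaryGroup (Fin n) ℂ :=
    fun J hJ => mem_specialUnitaryGroup_iff.2 ⟨mem_unitaryGroup_iff'.2 hJ.1, hJ.2.1⟩
  refine ⟨⟨J1, mem _ h1⟩, ⟨J2, mem _ h2⟩, ⟨J3, mem _ h3⟩, ⟨J4, mem _ h4⟩, ?_, ?_, ?_, ?_, ?_⟩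
  · rw [pow_two]; exact Subtype.ext h1.2.2
  · rw [pow_two]; exact Subtype.ext h2.2.2
  · rw [pow_two]; exact Subtype.ext h3.2.2
  · rw [pow_two]; exact Subtype.ext h4.2.2
  · refine Subtype.ext ?_
    show A = J1 * J2 * J3 * J4
    rw [h, Matrix.mul_assoc (J1 * J2)]

end Pool.Agent.Results.MP_ca7eb7_al.Four
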